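import Mathlib
import Pool.Agent.H594.WI.Loc

set_option autoImplicit false
set_option linter.unusedSectionVars false

/-!
Places at which a number is near to a given number and finitely many given numbers of small height
are almost units; valuation rings of the complex numbers which extend them.
-/

namespace Pool.Agent.H594.ZP

open NumberField IsDedekindDomain Finset Module Height
open Pool.Agent.W180.OP (Pl av wt fv fv_apply wt_nonneg fv_support_finite nrm le_nrm nrm_pos
  exists_nrm nrm_nonneg partial_le)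
open Pool.Agent.NH28 (ldeg ldeg_pos exists_over fv_ext fab lN lN_pos fv_eq fv_le_one_iff)
open Pool.Agent.H594.WI

open scoped Classical

section sums

variable {L : Type} [Field L] [NumberField L]

/-- the sum of the local terms at finitely many primes -/
theorem sum_abs_le {y : L} (hy : y ≠ 0) (T : Finset (HeightOneSpectrum (𝓞 L))) :
    ∑ v ∈ T, |Real.log (fv v y)| ≤ logHeight (pt y) + logHeight (pt y⁻¹) := by
  have h1 := partial_le (pt y) 0 rfl ∅ T
  have h2 := partial_le (pt y⁻¹) 0 rfl ∅ T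
  rw [Finset.sum_empty, zero_add] at h1 h2
  refine le_trans ?_ (add_le_add h1 h2)
  rw [← Finset.sum_add_distrib]
  refine Finset.sum_le_sum fun v _ => ?_
  have e1 : Real.log (fv v y) ≤ Real.log (nrm (fv v) (pt y)) :=
    Real.log_le_log ((fv v).pos hy) (le_nrm' _ _)
  have e2 : Real.log (fv v y⁻¹) ≤ Real.log (nrm (fv v) (pt y⁻¹)) :=
    Real.log_le_log ((fv v).pos (inv_ne_zero hy)) (le_nrm' _ _)
  have e3 : 0 ≤ Real.log (nrm (fv v) (pt y)) := Real.log_nonneg (one_le_nrm _ _)
  have e4 : 0 ≤ Real.log (nrm (fv v) (pt y⁻¹)) := Real.log_nonneg (one_le_nrm _ _)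
  rw [map_inv₀, Real.log_inv] at e2
  rw [abs_le]
  constructor <;> linarith

end sums

section tower

variable {K L M : Type} [Field K] [NumberField K] [Field L] [NumberField L] [Algebra K L]
  [Field M] [NumberField M] [Algebra L M]

/-- **A good place.** -/
theorem exists_place (S : Finset (Pl K)) (p : K × K) {z : L} (hz : lf p z ≠ 0) {ι : Type}
    [Fintype ι] (y : ι → M) (hy : ∀ i, y i ≠ 0) (c : ℝ) (hc : 0 ≤ c)
    (h : ∑ i, (logHeight (pt (y i)) + logHeight (pt (y i)⁻¹)) < c * (finrank L M * cnt S p z)) :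
    ∃ w : HeightOneSpectrum (𝓞 L), w ∉ fab L S ∧ 0 < lam p z w ∧
      ∃ w' : HeightOneSpectrum (𝓞 M), w'.asIdeal.LiesOver w.asIdeal ∧
        ∑ i, |Real.log (fv w' (y i))| ≤ c * (ldeg w w' * lam p z w) := by
  by_contra hcon
  push Not at hcon
  have hT0 := lam_support hz
  let T0 : Finset (HeightOneSpectrum (𝓞 L)) := hT0.toFinset
  let T : Finset (HeightOneSpectrum (𝓞 L)) := T0.filter fun w => w ∉ fab L S ∧ 0 < lam p z w
  have hcnt : cnt S p z ≤ ∑ w ∈ T, lam p z w := by
    rw [cnt_eq S T0 (fun v hv => (Set.Finite.mem_toFinset _).2 hv)]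
    have h1 : T = (T0.filter fun w => w ∉ fab L S).filter fun w => 0 < lam p z w := by
      rw [Finset.filter_filter]
    rw [h1, ← Finset.sum_filter_add_sum_filter_not (T0.filter fun w => w ∉ fab L S)
      (fun w => 0 < lam p z w)]
    have h2 : ∑ w ∈ (T0.filter fun w => w ∉ fab L S).filter (fun w => ¬ 0 < lam p z w),
        lam p z w ≤ 0 := Finset.sum_nonpos fun w hw => not_lt.1 (Finset.mem_filter.1 hw).2
    linarith
  choose U hU1 hU2 using fun w : HeightOneSpectrum (𝓞 L) => exists_over (L := M) w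
  have hdisj : Set.PairwiseDisjoint (T : Set (HeightOneSpectrum (𝓞 L))) U := by
    intro w _ w1 _ hne
    rw [Function.onFun, Finset.disjoint_left]
    intro w' h1 h2
    apply hne
    apply HeightOneSpectrum.ext
    have e1 := ((hU1 w w').1 h1).over
    have e2 := ((hU1 w1 w').1 h2).over
    rw [e1, e2]
  have h1 : ∑ w' ∈ T.biUnion U, ∑ i, |Real.log (fv w' (y i))| ≤
      ∑ i, (logHeight (pt (y i)) + logHeight (pt (y i)⁻¹)) := by
    rw [Finset.sum_comm]
    exact Finset.sum_le_sum fun i _ => sum_abs_le (hy i) _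
  have h2 : c * (finrank L M * cnt S p z) ≤
      ∑ w' ∈ T.biUnion U, ∑ i, |Real.log (fv w' (y i))| := by
    rw [Finset.sum_biUnion hdisj]
    have h3 : c * (finrank L M * cnt S p z) ≤ ∑ w ∈ T, c * (finrank L M * lam p z w) := by
      rw [← Finset.mul_sum, ← Finset.mul_sum]
      exact mul_le_mul_of_nonneg_left (mul_le_mul_of_nonneg_left hcnt (Nat.cast_nonneg _)) hc
    refine h3.trans (Finset.sum_le_sum fun w hw => ?_)
    obtain ⟨hw1, hw2⟩ := (Finset.mem_filter.1 hw).2
    have h4 : c * (finrank L M * lam p z w) = ∑ w' ∈ U w, c * (ldeg w w' * lam p z w) := by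
      rw [← Finset.mul_sum, ← Finset.sum_mul, ← hU2 w]
      push_cast
      rfl
    rw [h4]
    refine Finset.sum_le_sum fun w' hw' => ?_
    exact (hcon w hw1 hw2 w' ((hU1 w w').1 hw')).le
  linarith

end tower

section val

variable {M : Type} [Field M] [NumberField M]

theorem log_fv' (v : HeightOneSpectrum (𝓞 M)) {z : M} {k : ℤ}
    (hz : v.valuation M z = WithZero.exp k) : Real.log (fv v z) = k * lN v := by
  rw [fv_eq, hz, WithZeroMulInt.toNNReal_neg_apply _ (WithZero.exp_ne_zero)]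
  have h2 : (WithZero.unzero (WithZero.exp_ne_zero (a := k))).toAdd = k := rfl
  rw [h2]
  push_cast
  rw [Real.log_zpow]
  rfl

/-- **A valuation ring of the complex numbers above a prime.** -/
theorem exists_val (φ : M →+* ℂ) (w : HeightOneSpectrum (𝓞 M)) :
    ∃ (V : ValuationSubring ℂ) (π : ℂ), π ≠ 0 ∧ V.valuation π < 1 ∧
      (∀ x : M, fv w x ≤ 1 → φ x ∈ V) ∧
      ∀ x : M, x ≠ 0 → ∃ k : ℤ, Real.log (fv w x) = -(k : ℝ) * lN w ∧
        V.valuation (φ x) = V.valuation π ^ k := by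
  let R : ValuationSubring M := (w.valuation M).valuationSubring
  obtain ⟨V, hV, hloc⟩ := IsLocalRing.exists_factor_valuationRing (φ.comp R.subtype)
  have hmem : ∀ x : M, fv w x ≤ 1 → φ x ∈ V := by
    intro x hx
    have h1 : x ∈ R := (Valuation.mem_valuationSubring_iff _ _).2 ((fv_le_one_iff w x).1 hx)
    exact hV ⟨x, h1⟩
  obtain ⟨π0, hπ0⟩ := w.valuation_exists_uniformizer M
  have hπne : π0 ≠ 0 := by
    rintro rfl
    rw [map_zero] at hπ0
    exact WithZero.exp_ne_zero hπ0.symm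
  have hlogπ := log_fv' w hπ0
  have hfπ : fv w π0 < 1 := by
    have h1 : Real.log (fv w π0) < 0 := by
      rw [hlogπ]
      have := lN_pos w
      push_cast
      linarith
    by_contra h2
    push Not at h2
    exact absurd (Real.log_nonneg h2) (not_le.2 h1)
  have hπV : V.valuation (φ π0) < 1 := by
    refine lt_of_le_of_ne ((ValuationSubring.valuation_le_one_iff _ _).2 (hmem _ hfπ.le)) ?_
    intro h1
    have hπR : π0 ∈ R := (Valuation.mem_valuationSubring_iff _ _).2
      ((fv_le_one_iff w π0).1 hfπ.le)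
    have h2 : IsUnit (((φ.comp R.subtype).codRestrict V.toSubring hV) ⟨π0, hπR⟩) := by
      have h3 : (⟨φ π0, hmem _ hfπ.le⟩ : V) = ((φ.comp R.subtype).codRestrict V.toSubring hV)
        ⟨π0, hπR⟩ := rfl
      have h4 : IsUnit (⟨φ π0, hmem _ hfπ.le⟩ : V) := (ValuationSubring.valuation_eq_one_iff _ _).2 h1
      rw [← h3]
      exact h4
    have h5 := hloc.map_nonunit _ h2
    obtain ⟨u, hu⟩ := h5
    have h6 : ((u⁻¹ : Rˣ) : R) * ⟨π0, hπR⟩ = 1 := by
      rw [← hu]
      exact u.inv_mul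
    have h7 : (((u⁻¹ : Rˣ) : R) : M) * π0 = 1 := congrArg Subtype.val h6
    have h8 := congrArg (fv w) h7
    rw [map_mul, map_one] at h8
    have h9 : fv w (((u⁻¹ : Rˣ) : R) : M) ≤ 1 := (fv_le_one_iff w _).2
      ((Valuation.mem_valuationSubring_iff _ _).1 ((u⁻¹ : Rˣ) : R).2)
    have h10 : 0 ≤ fv w (((u⁻¹ : Rˣ) : R) : M) := (fv w).nonneg _
    nlinarith [(fv w).nonneg π0]
  refine ⟨V, φ π0, (map_ne_zero φ).2 hπne, hπV, hmem, ?_⟩
  intro x hx
  have hvx : w.valuation M x ≠ 0 := (Valuation.ne_zero_iff _).2 hx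
  obtain ⟨k, hk⟩ : ∃ k : ℤ, w.valuation M x = WithZero.exp (-k) := by
    refine ⟨-(WithZero.log (w.valuation M x)), ?_⟩
    rw [neg_neg, WithZero.exp_log hvx]
  have hlogx := log_fv' w hk
  refine ⟨k, by rw [hlogx]; push_cast; ring, ?_⟩
  have hy0 : x * π0 ^ (-k) ≠ 0 := mul_ne_zero hx (zpow_ne_zero _ hπne)
  have hy : fv w (x * π0 ^ (-k)) = 1 := by
    have h1 : Real.log (fv w (x * π0 ^ (-k))) = 0 := by
      rw [map_mul, map_zpow₀, Real.log_mul ((fv w).pos hx).ne'
        (zpow_ne_zero _ ((fv w).pos hπne).ne'), Real.log_zpow, hlogx, hlogπ]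
      push_cast
      ring
    have h2 := (fv w).pos hy0
    rcases Real.log_eq_zero.1 h1 with h | h | h
    · exact absurd h h2.ne'
    · exact h
    · linarith
  have hV1 : V.valuation (φ (x * π0 ^ (-k))) ≤ 1 :=
    (ValuationSubring.valuation_le_one_iff _ _).2 (hmem _ hy.le)
  have hV2 : V.valuation (φ (x * π0 ^ (-k))⁻¹) ≤ 1 := by
    refine (ValuationSubring.valuation_le_one_iff _ _).2 (hmem _ ?_)
    rw [map_inv₀, hy, inv_one]
  have hne : V.valuation (φ (x * π0 ^ (-k))) ≠ 0 :=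
    (Valuation.ne_zero_iff _).2 ((map_ne_zero φ).2 hy0)
  rw [map_inv₀, map_inv₀] at hV2
  have hV3 : V.valuation (φ (x * π0 ^ (-k))) = 1 :=
    le_antisymm hV1 ((inv_le_one₀ (zero_lt_iff.2 hne)).1 hV2)
  rw [map_mul, map_mul, map_zpow₀, map_zpow₀, zpow_neg] at hV3
  have hπv : V.valuation (φ π0) ≠ 0 := (Valuation.ne_zero_iff _).2 ((map_ne_zero φ).2 hπne)
  exact (mul_inv_eq_one₀ (zpow_ne_zero _ hπv)).1 hV3

end val

end Pool.Agent.H594.ZP
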