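import Mathlib
import Pool.Agent.H594.WI.Eng
import Pool.Agent.H594.WI.Ratio
import Pool.Agent.H594.ZP.Place

set_option autoImplicit false
set_option linter.unusedSectionVars false

/-!
Numbers of bounded degree are near to all but few of given numbers, at places at which finitely many
numbers of small height are almost units.
-/

namespace Pool.Agent.H594.ZP

open NumberField IsDedekindDomain Finset Module Height
open Pool.Agent.W180.OP (Pl av wt fv fv_support_finite nrm exists_nrm)
open Pool.Agent.NH28 (ldeg ldeg_pos exists_over fv_ext fab lN lN_pos)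
open Pool.Agent.H594.ML Pool.Agent.H594.WI
open Pool.Agent.Helper259.AbsHt Pool.Agent.Y215.SK Pool.Agent.Y215.AF

open scoped Classical

/-- many of the numbers in `R` are near to `z` -/
theorem count_good (K : IntermediateField ℚ Qbar) [FiniteDimensional ℚ K] (R G : Finset Qbar)
    (d : ℕ) (hd : 1 ≤ d) :
    ∃ (F : IntermediateField ℚ Qbar) (_ : NumberField F) (S : Finset (Pl F)),
      (∀ a ∈ R, a ∈ F) ∧
      (∀ (v : HeightOneSpectrum (𝓞 F)), Sum.inr v ∉ S → ∀ g ∈ R ∪ G, ∃ hg : g ∈ F,
        fv v (⟨g, hg⟩ : F) ≤ 1) ∧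
      ∃ E : Set Qbar, E.Finite ∧ (∀ a ∈ R, a ∈ E) ∧ ∀ z ∈ DegQ K d, z ∉ E → 0 < h1 z ∧
        ∃ R' : Finset Qbar, R' ⊆ R ∧ R.card ≤ R'.card + 2 * d ∧
          (IsIntegral ℤ z → R.card + 1 ≤ R'.card + 2 * d) ∧
          ∀ a ∈ R', (1 / (4 * d + 4) : ℝ) * (finrank ℚ (EL F z) * h1 z) ≤
            cnt S (pf F a) (ge F z) := by
  obtain ⟨F, hF, hKF, hXF, -⟩ := exists_field K (R ∪ G) ∅
  have hRF : ∀ a ∈ R, a ∈ F := fun a ha => hXF a (Finset.mem_union_left _ ha)
  let e : Fin R.card ≃ R := R.equivFin.symm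
  let p : Fin (R.card + 1) → F × F := Fin.cons (pinf F) (fun i => pf F (e i))
  have hp0 : p 0 = pinf F := rfl
  have hps : ∀ i : Fin R.card, p i.succ = pf F (e i) := fun i => rfl
  have hpe : ∀ i : Fin R.card, pf F (e i) = (1, ⟨e i, hRF _ (e i).2⟩) := fun i => dif_pos _
  have hdet : ∀ i j, i ≠ j → (p i).1 * (p j).2 - (p j).1 * (p i).2 ≠ 0 := by
    intro i j
    refine Fin.cases ?_ (fun i => ?_) i <;> refine Fin.cases ?_ (fun j => ?_) j
    · intro h
      exact absurd rfl h
    · intro _
      rw [hp0, hps, hpe]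
      unfold pinf
      simp
    · intro _
      rw [hp0, hps, hpe]
      unfold pinf
      simp
    · intro hij
      rw [hps, hps, hpe, hpe]
      simp only [one_mul]
      intro h
      apply hij
      congr 1
      apply e.injective
      apply Subtype.ext
      exact (congrArg (fun x : F => (x : Qbar)) (sub_eq_zero.1 h)).symm
  have hpne : ∀ i, p i ≠ 0 := by
    intro i
    refine Fin.cases ?_ (fun i => ?_) i
    · rw [hp0]
      unfold pinf
      intro h
      have := congrArg Prod.snd h
      simp at this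
    · rw [hps, hpe]
      intro h
      have := congrArg Prod.fst h
      simp at this
  let X0 : Finset F := (R ∪ G).attach.image fun u : {x // x ∈ R ∪ G} => (⟨u.1, hXF u.1 u.2⟩ : F)
  let X : Finset F := X0.filter fun x => x ≠ 0
  obtain ⟨S, hS, hSg⟩ := exists_good F p hdet X (fun x hx => (Finset.mem_filter.1 hx).2)
  have hlf : ∀ z, z ∉ R → ∀ i, lf (p i) (ge F z) ≠ 0 := by
    intro z hz i
    refine Fin.cases ?_ (fun i => ?_) i
    · rw [hp0, lf_pinf]
      exact one_ne_zero
    · rw [hps]
      intro h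
      have h2 := lf_pf F (hRF _ (e i).2) z
      rw [h] at h2
      have h3 : z - (e i : Qbar) = 0 := h2.symm
      exact hz (by rw [sub_eq_zero.1 h3]; exact (e i).2)
  have hfr : ∀ z : Qbar, (1 : ℝ) ≤ finrank ℚ (EL F z) := by
    intro z
    exact_mod_cast (finrank_pos : 0 < finrank ℚ (EL F z))
  choose C hC0 hC using fun i : Fin (R.card + 1) => cnt_le S hS.inf (p i) d
  obtain ⟨P, hP0, hmain⟩ := wirsing p hpne hdet d hd (1 / 4) (by norm_num)
  obtain ⟨D, hD0, hD⟩ := hmain S hS.inf
  let Pm : Polynomial Qbar := P.map (algebraMap F Qbar)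
  have hPm : Pm ≠ 0 := by
    intro h
    exact hP0 ((Polynomial.map_eq_zero _).1 h)
  set B : ℝ := ∑ i, C i + D with hB
  have hB0 : 0 ≤ B := add_nonneg (Finset.sum_nonneg fun i _ => hC0 i) hD0
  refine ⟨F, hF, S, hRF, ?_, {z | z ∈ DegQ K d ∧ h1 z ≤ 4 * B} ∪ {z | Pm.eval z = 0} ∪
    (R : Set Qbar), ?_, fun a ha => Or.inr ha, ?_⟩
  · intro v hv g hg
    refine ⟨hXF g hg, ?_⟩
    by_cases h0 : (⟨g, hXF g hg⟩ : F) = 0
    · rw [h0, map_zero]
      exact zero_le_one
    · refine (hSg v hv _ (Finset.mem_filter.2 ⟨Finset.mem_image.2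
        ⟨⟨g, hg⟩, Finset.mem_attach _ _, rfl⟩, h0⟩)).le
  · refine ((northcott_deg K d (4 * B)).union ?_).union (Finset.finite_toSet R)
    refine (Pm.roots.toFinset.finite_toSet).subset fun z hz => ?_
    exact Finset.mem_coe.2 (Multiset.mem_toFinset.2 ((Polynomial.mem_roots hPm).2 hz))
  intro z hzd hzE
  have hzR : z ∉ R := fun h => hzE (Or.inr h)
  have hzP : Pm.eval z ≠ 0 := fun h => hzE (Or.inl (Or.inr h))
  have hzB : 4 * B < h1 z := by
    by_contra h
    exact hzE (Or.inl (Or.inl ⟨hzd, not_lt.1 h⟩))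
  have hz0 : 0 < h1 z := lt_of_le_of_lt (by linarith) hzB
  refine ⟨hz0, ?_⟩
  set n : ℝ := (finrank ℚ (EL F z) : ℝ) with hn
  have hn1 : 1 ≤ n := hfr z
  have hn0 : 0 < n := by linarith
  set δ : ℝ := 1 / (4 * d + 4) with hδ
  have hδ0 : 0 < δ := by positivity
  have hδd : (2 * d + 1) * δ ≤ 1 / 2 := by
    rw [hδ, mul_one_div, div_le_div_iff₀ (by positivity) (by norm_num)]
    have : (0 : ℝ) ≤ d := Nat.cast_nonneg d
    linarith
  -- the small ones
  let s : Finset (Fin (R.card + 1)) := Finset.univ.filter fun i =>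
    cnt S (p i) (ge F z) < δ * (n * h1 z)
  have hpt : logHeight (pt (ge F z)) = n * h1 z := by
    have h3 : ((ge F z : EL F z) : Qbar) = z := rfl
    rw [h1_pt, h3]
  have hup : ∀ i, cnt S (p i) (ge F z) ≤ n * h1 z + C i := by
    intro i
    have h2 := hC i (EL F z) (finrank_EL F hKF hzd) (ge F z) (hlf z hzR i)
    rwa [hpt] at h2
  have hW : ((R.card : ℝ) + 1 - (2 * d + 1 / 4)) * (n * h1 z) - D * n ≤
      ∑ i, cnt S (p i) (ge F z) := by
    have hz1 : Polynomial.aeval (ge F z) P ≠ 0 := by
      intro h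
      apply hzP
      have h2 := congrArg (fun x : EL F z => (x : Qbar)) h
      have h3 : ((Polynomial.aeval (ge F z) P : EL F z) : Qbar) = Polynomial.aeval z P := by
        exact (Polynomial.aeval_algebraMap_apply Qbar (ge F z) P).symm
      simp only [h3] at h2
      rw [Polynomial.eval_map_algebraMap]
      exact h2
    have h2 := hD (EL F z) (finrank_EL F hKF hzd) (ge F z) (adjoin_ge F z) hz1 (hlf z hzR)
    rw [hpt] at h2
    push_cast at h2
    exact h2
  have hscard : s.card ≤ 2 * d := by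
    by_contra hcon
    push Not at hcon
    have h2 : ∑ i, cnt S (p i) (ge F z) ≤
        s.card * (δ * (n * h1 z)) + (R.card + 1 - s.card) * (n * h1 z) + ∑ i, C i := by
      have h3 : ∀ i, cnt S (p i) (ge F z) ≤ (if i ∈ s then δ * (n * h1 z) else n * h1 z) + C i := by
        intro i
        split_ifs with hi
        · have h4 := (Finset.mem_filter.1 hi).2
          have := hC0 i
          linarith
        · exact hup i
      refine (Finset.sum_le_sum fun i _ => h3 i).trans ?_
      rw [Finset.sum_add_distrib, add_le_add_iff_right]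
      have h5 : ∑ i : Fin (R.card + 1), (if i ∈ s then δ * (n * h1 z) else n * h1 z) =
          s.card * (δ * (n * h1 z)) + (Finset.univ \ s).card * (n * h1 z) := by
        rw [Finset.sum_ite, Finset.sum_const, Finset.sum_const, nsmul_eq_mul, nsmul_eq_mul]
        congr 3
        · rw [Finset.filter_mem_eq_inter, Finset.univ_inter]
        · rw [Finset.sdiff_eq_filter]
      rw [h5]
      have h6 : ((Finset.univ \ s).card : ℝ) = R.card + 1 - s.card := by
        rw [Finset.card_sdiff_of_subset (Finset.subset_univ _), Finset.card_univ, Fintype.card_fin,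
          Nat.cast_sub (by
            have := Finset.card_le_univ s
            rwa [Fintype.card_fin] at this)]
        push_cast
        ring
      rw [h6]
    have h7 : (2 * d + 1 : ℝ) ≤ s.card := by exact_mod_cast hcon
    have h8 : 0 < n * h1 z := mul_pos hn0 hz0
    have h9 : D * n + ∑ i, C i ≤ B * n := by
      rw [hB, add_mul]
      have h10 : ∑ i, C i ≤ (∑ i, C i) * n :=
        le_mul_of_one_le_right (Finset.sum_nonneg fun i _ => hC0 i) hn1
      linarith
    have h11 : B * n < (1 / 4) * (n * h1 z) := by nlinarith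
    -- `(2d+1)(1-δ) ≤ 2d + 1/4 + 1/4`
    have h12 : (s.card : ℝ) * (1 - δ) * (n * h1 z) < (2 * d + 1 / 2) * (n * h1 z) := by
      nlinarith [hW, h2, h9, h11]
    have h13 := lt_of_mul_lt_mul_right h12 h8.le
    have hδ1 : 0 ≤ 1 - δ := by nlinarith [Nat.cast_nonneg (α := ℝ) d]
    have h14 : (2 * d + 1) * (1 - δ) ≤ (s.card : ℝ) * (1 - δ) :=
      mul_le_mul_of_nonneg_right h7 hδ1
    nlinarith
  -- the good ones
  let R' : Finset Qbar := R.filter fun a => δ * (n * h1 z) ≤ cnt S (pf F a) (ge F z)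
  let s1 : Finset (Fin R.card) := Finset.univ.filter fun i =>
    cnt S (pf F (e i)) (ge F z) < δ * (n * h1 z)
  have hRc : R.card = R'.card + s1.card := by
    have h2 := Finset.card_filter_add_card_filter_not (s := R)
      (fun a => δ * (n * h1 z) ≤ cnt S (pf F a) (ge F z))
    refine h2.symm.trans (congrArg (fun x => R'.card + x) ?_)
    symm
    refine Finset.card_bij (fun i _ => (e i : Qbar)) ?_ ?_ ?_
    · intro i hi
      rw [Finset.mem_filter] at hi ⊢
      exact ⟨(e i).2, not_le.2 hi.2⟩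
    · intro i _ j _ hij
      exact e.injective (Subtype.ext hij)
    · intro a ha
      rw [Finset.mem_filter] at ha
      refine ⟨e.symm ⟨a, ha.1⟩, ?_, ?_⟩
      · rw [Finset.mem_filter]
        refine ⟨Finset.mem_univ _, ?_⟩
        rw [Equiv.apply_symm_apply]
        exact not_le.1 ha.2
      · rw [Equiv.apply_symm_apply]
  have hs1 : (s1.map (Fin.succEmb _)).card ≤ s.card ∧ s1.map (Fin.succEmb _) ⊆ s := by
    have h2 : s1.map (Fin.succEmb _) ⊆ s := by
      intro i hi
      obtain ⟨j, hj, rfl⟩ := Finset.mem_map.1 hi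
      exact Finset.mem_filter.2 ⟨Finset.mem_univ _, (Finset.mem_filter.1 hj).2⟩
    exact ⟨Finset.card_le_card h2, h2⟩
  rw [Finset.card_map] at hs1
  refine ⟨R', Finset.filter_subset _ _, by omega, fun hzi => ?_, fun a ha => ?_⟩
  · have h0 : (0 : Fin (R.card + 1)) ∈ s := by
      refine Finset.mem_filter.2 ⟨Finset.mem_univ _, ?_⟩
      rw [hp0, cnt_pinf F S hzi]
      positivity
    have h2 : insert 0 (s1.map (Fin.succEmb _)) ⊆ s := by
      intro i hi
      rcases Finset.mem_insert.1 hi with rfl | hi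
      · exact h0
      · exact hs1.2 hi
    have h3 := Finset.card_le_card h2
    rw [Finset.card_insert_of_notMem (by
      intro h
      obtain ⟨j, -, hj⟩ := Finset.mem_map.1 h
      exact Fin.succ_ne_zero j hj), Finset.card_map] at h3
    omega
  · exact (Finset.mem_filter.1 ha).2

end Pool.Agent.H594.ZP
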