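import Mathlib
import Pool.Agent.H594.ZP.Count

set_option autoImplicit false
set_option linter.unusedSectionVars false

/-!
Valuation rings of the complex numbers in which a number of bounded degree is near to a given number
and finitely many numbers of small height are almost units.
-/

namespace Pool.Agent.H594.ZP

open NumberField IsDedekindDomain Finset Module Height
open Pool.Agent.W180.OP (Pl av wt fv fv_support_finite nrm exists_nrm nrm_nonneg)
open Pool.Agent.NH28 (ldeg ldeg_pos exists_over fv_ext fab lN lN_pos)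
open Pool.Agent.H594.ML Pool.Agent.H594.WI
open Pool.Agent.Helper259.AbsHt Pool.Agent.Y215.SK Pool.Agent.Y215.AF

open scoped Classical

/-- the height in a number field -/
theorem h1_pt' {M : Type} [Field M] [NumberField M] (φ : M →+* Qbar) (y : M) :
    logHeight (pt y) = finrank ℚ M * h1 (φ y) := by
  have hN : (0 : ℝ) < finrank ℚ M := by
    exact_mod_cast (finrank_pos : 0 < finrank ℚ M)
  have e1 := absLogHeight_eq M φ (pt y)
  have e2 : absLogHeight (fun i => φ (pt y i)) = h1 (φ y) := by
    unfold h1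
    apply le_antisymm
    · have h := absLogHeight_comp_le (![1, 0] : Fin 2 → Fin 2) (![φ y, 1] : Fin 2 → Qbar)
      refine le_trans (le_of_eq ?_) h
      congr 1
      funext i
      fin_cases i
      · exact map_one _
      · rfl
    · have h := absLogHeight_comp_le (![1, 0] : Fin 2 → Fin 2)
        (fun i => φ (pt y i))
      refine le_trans (le_of_eq ?_) h
      congr 1
      funext i
      fin_cases i
      · rfl
      · exact (map_one _).symm
  rw [← e2, e1]
  field_simp

/-- the field generated by further numbers -/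
noncomputable abbrev ELL (F : IntermediateField ℚ Qbar) (z : Qbar) {ι : Type} (y : ι → Qbar) :
    IntermediateField (EL F z) Qbar := IntermediateField.adjoin (EL F z) (Set.range y)

section

variable (F : IntermediateField ℚ Qbar) [NumberField F] (z : Qbar) {ι : Type} [Fintype ι]
  (y : ι → Qbar)

instance finELL : FiniteDimensional (EL F z) (ELL F z y) := by
  have halg : Algebra.IsAlgebraic ℚ Qbar := AlgebraicClosure.isAlgebraic ℚ
  refine IntermediateField.finiteDimensional_adjoin fun x _ => ?_
  exact (Algebra.IsAlgebraic.isAlgebraic (R := ℚ) x).isIntegral.tower_top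

instance nfELL : NumberField (ELL F z y) where
  to_charZero := inferInstance
  to_finiteDimensional := Module.Finite.trans (EL F z) (ELL F z y)

end

/-- **Good places.** -/
theorem good_places (K : IntermediateField ℚ Qbar) [FiniteDimensional ℚ K] (R G : Finset Qbar)
    (d : ℕ) (hd : 1 ≤ d) (c κ : ℝ) (hc : 0 < c) (hκ : 2 * κ * (4 * d + 4) < c) :
    ∃ E : Set Qbar, E.Finite ∧ (∀ a ∈ R, a ∈ E) ∧ ∀ z ∈ DegQ K d, z ∉ E →
      ∃ R' : Finset Qbar, R' ⊆ R ∧ R.card ≤ R'.card + 2 * d ∧
        (IsIntegral ℤ z → R.card + 1 ≤ R'.card + 2 * d) ∧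
        ∀ (ι : Type) [Fintype ι] (y : ι → Qbar), (∀ i, y i ≠ 0) →
          ∑ i, h1 (y i) ≤ κ * h1 z → ∀ a ∈ R',
          ∃ (V : ValuationSubring ℂ) (π : ℂ), π ≠ 0 ∧ V.valuation π < 1 ∧
            (∀ g ∈ G, sg g ∈ V) ∧ ∃ m : ℤ, 0 < m ∧
              V.valuation (sg (z - a)) = V.valuation π ^ m ∧
              ∃ k : ι → ℤ, (∀ i, V.valuation (sg (y i)) = V.valuation π ^ k i) ∧
                ∑ i, |(k i : ℝ)| ≤ c * m := by
  obtain ⟨F, hF, S, hRF, hS, E, hE, hRE, hmain⟩ := count_good K R G d hd
  refine ⟨E, hE, hRE, fun z hzd hzE => ?_⟩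
  obtain ⟨hz0, R', hR'R, hc1, hc2, hgood⟩ := hmain z hzd hzE
  refine ⟨R', hR'R, hc1, hc2, ?_⟩
  intro ι _ y hy hsum a ha
  have haR : a ∈ R := hR'R ha
  have haF : a ∈ F := hRF a haR
  have hza : z - a ≠ 0 := by
    intro h
    exact hzE (by rw [sub_eq_zero.1 h]; exact hRE a haR)
  let M := ELL F z y
  let φ : M →+* Qbar := algebraMap M Qbar
  let y' : ι → M := fun i => ⟨y i, IntermediateField.subset_adjoin _ _ ⟨i, rfl⟩⟩
  have hy' : ∀ i, φ (y' i) = y i := fun i => rfl
  have hy'0 : ∀ i, y' i ≠ 0 := by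
    intro i h
    apply hy i
    rw [← hy' i, h, map_zero]
  have hlfne : lf (pf F a) (ge F z) ≠ 0 := by
    intro h
    apply hza
    rw [← lf_pf F haF z, h]
    rfl
  have hn0 : (0 : ℝ) < finrank ℚ (EL F z) := by
    exact_mod_cast (finrank_pos : 0 < finrank ℚ (EL F z))
  have hm0 : (0 : ℝ) < finrank (EL F z) M := by
    exact_mod_cast (finrank_pos : 0 < finrank (EL F z) M)
  have hMn : (finrank ℚ M : ℝ) = finrank ℚ (EL F z) * finrank (EL F z) M := by
    have h := Module.finrank_mul_finrank ℚ (EL F z) M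
    rw [← h]
    push_cast
    rfl
  obtain ⟨w, hwS, hlam, w', hw', hle⟩ := exists_place S (pf F a) hlfne y' hy'0 c hc.le (by
    have h1' : ∀ i, logHeight (pt (y' i)) + logHeight (pt (y' i)⁻¹) =
        finrank ℚ M * (2 * h1 (y i)) := by
      intro i
      rw [h1_pt' φ, h1_pt' φ, map_inv₀, h1_inv, hy']
      ring
    simp only [h1', ← Finset.mul_sum]
    have h2 := hgood a ha
    have h3 : (2 : ℝ) * ∑ i, h1 (y i) < c * ((1 / (4 * d + 4)) * h1 z) := by
      have h4 : (0 : ℝ) < 4 * d + 4 := by positivity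
      have h5 : 2 * κ < c * (1 / (4 * d + 4)) := by
        rw [mul_one_div, lt_div_iff₀ h4]
        exact hκ
      have h6 : 2 * κ * h1 z < c * (1 / (4 * d + 4)) * h1 z := mul_lt_mul_of_pos_right h5 hz0
      linarith
    calc (finrank ℚ M : ℝ) * (2 * ∑ i, h1 (y i)) < finrank ℚ M * (c * ((1 / (4 * d + 4)) * h1 z)) :=
          mul_lt_mul_of_pos_left h3 (by rw [hMn]; positivity)
      _ = c * (finrank (EL F z) M * ((1 / (4 * d + 4)) * (finrank ℚ (EL F z) * h1 z))) := by
          rw [hMn]
          ring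
      _ ≤ _ := by
          refine mul_le_mul_of_nonneg_left ?_ hc.le
          exact mul_le_mul_of_nonneg_left h2 hm0.le)
  obtain ⟨v, hvS, hvw⟩ := not_fab hwS
  -- integrality
  have hint : ∀ g ∈ R ∪ G, ∃ hg : g ∈ F, fv w (algebraMap F (EL F z) ⟨g, hg⟩) ≤ 1 := by
    intro g hg
    obtain ⟨hgF, h⟩ := hS v hvS g hg
    exact ⟨hgF, fv_algebraMap_le hvw h⟩
  obtain ⟨V, π, hπ0, hπ1, hV1, hV2⟩ := exists_val ((sg : Qbar →+* ℂ).comp φ) w'
  refine ⟨V, π, hπ0, hπ1, ?_, ?_⟩
  · intro g hg
    obtain ⟨hgF, h⟩ := hint g (Finset.mem_union_right _ hg)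
    have h2 := hV1 (algebraMap (EL F z) M (algebraMap F (EL F z) ⟨g, hgF⟩))
      (fv_algebraMap_le hw' h)
    exact h2
  · have hz1 : fv w (ge F z) ≤ 1 := by
      by_contra hcon
      push Not at hcon
      obtain ⟨haF', ha1⟩ := hint a (Finset.mem_union_left _ haR)
      have e1 : lf (pf F a) (ge F z) = ge F z - algebraMap F (EL F z) ⟨a, haF'⟩ := by
        apply Subtype.ext
        rw [lf_pf F haF z]
        rfl
      have e2 : fv w (ge F z) ≤ fv w (lf (pf F a) (ge F z)) := by
        have h3 : ge F z = lf (pf F a) (ge F z) + algebraMap F (EL F z) ⟨a, haF'⟩ := by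
          rw [e1, sub_add_cancel]
        have h4 := fv_add_le w (lf (pf F a) (ge F z)) (algebraMap F (EL F z) ⟨a, haF'⟩)
        rw [← h3] at h4
        rcases le_max_iff.1 h4 with h5 | h5
        · exact h5
        · linarith
      have e3 : nrm (fv w) (pt (ge F z)) = fv w (ge F z) := by
        obtain ⟨i, hi⟩ := exists_nrm (fv w) (by norm_num : 0 < 2) (pt (ge F z))
        fin_cases i
        · have h5 : nrm (fv w) (pt (ge F z)) = 1 := by
            rw [← hi]
            exact map_one (fv w)
          have h6 := le_nrm' (fv w) (ge F z)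
          linarith
        · exact hi.symm
      have h7 : lam (pf F a) (ge F z) w ≤ 0 := by
        unfold lam
        rw [e3, sub_nonpos]
        exact Real.log_le_log (by linarith) e2
      linarith
    have hnrm : nrm (fv w) (pt (ge F z)) = 1 := by
      apply le_antisymm _ (one_le_nrm _ _)
      obtain ⟨i, hi⟩ := exists_nrm (fv w) (by norm_num : 0 < 2) (pt (ge F z))
      rw [← hi]
      fin_cases i
      · exact (map_one (fv w)).le
      · exact hz1
    have hlam' : lam (pf F a) (ge F z) w = -Real.log (fv w (lf (pf F a) (ge F z))) := by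
      unfold lam
      rw [hnrm, Real.log_one, zero_sub]
    have hlfM : algebraMap (EL F z) M (lf (pf F a) (ge F z)) ≠ 0 :=
      (map_ne_zero _).2 hlfne
    obtain ⟨m, hm1, hm2⟩ := hV2 _ hlfM
    have hval : (sg : Qbar →+* ℂ).comp φ (algebraMap (EL F z) M (lf (pf F a) (ge F z))) =
        sg (z - a) := by
      rw [← lf_pf F haF z]
      rfl
    rw [hval] at hm2
    have hlog : (m : ℝ) * lN w' = ldeg w w' * lam (pf F a) (ge F z) w := by
      have h2 : Real.log (fv w' (algebraMap (EL F z) M (lf (pf F a) (ge F z)))) =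
          ldeg w w' * Real.log (fv w (lf (pf F a) (ge F z))) := by
        rw [fv_ext w w' hw', Real.log_pow]
      rw [hlam']
      rw [h2] at hm1
      linarith
    have hmpos : 0 < m := by
      have h2 : (0 : ℝ) < ldeg w w' * lam (pf F a) (ge F z) w :=
        mul_pos (by exact_mod_cast ldeg_pos w w' hw') hlam
      rw [← hlog] at h2
      have h3 := pos_of_mul_pos_left h2 (lN_pos w').le
      exact_mod_cast h3
    choose k hk1 hk2 using fun i => hV2 (y' i) (hy'0 i)
    refine ⟨m, hmpos, hm2, k, fun i => hk2 i, ?_⟩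
    rw [← hlog] at hle
    have h2 : ∑ i, |Real.log (fv w' (y' i))| = (∑ i, |(k i : ℝ)|) * lN w' := by
      rw [Finset.sum_mul]
      refine Finset.sum_congr rfl fun i _ => ?_
      rw [hk1, abs_mul, abs_neg, abs_of_pos (lN_pos w')]
    rw [h2, ← mul_assoc] at hle
    exact le_of_mul_le_mul_right hle (lN_pos w')

end Pool.Agent.H594.ZP
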