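import Mathlib
import Pool.Graph.R_seed8.Y199.ZF.Fam

/-!
The criterion for the absence of atypical intersections with cosets, where the coordinates of the
point may have any values (a variant of the criterion `Pool.Agent.Y199.ZF.crit` of the library, the
proof of which is followed closely).
-/

set_option autoImplicit false

namespace Pool.Agent.H594.ZP

open MvPolynomial Pool.Agent.H173R3.ZT Pool.Agent.TH526.ZT Pool.Agent.Y199.ZF
open Pool.Agent.Results.MP_b7926e_nt.NoAtypical (coset idealOf dim mem_idealOf)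

variable {n m : ℕ}

theorem prod_zpow_sum {G : Type*} [CommGroupWithZero G] {x : G} (hx : x ≠ 0) {ι : Type*}
    (s : Finset ι) (f : ι → ℤ) : ∏ i ∈ s, x ^ f i = x ^ ∑ i ∈ s, f i := by
  classical
  induction s using Finset.induction_on with
  | empty => simp
  | insert a s ha ih => rw [Finset.prod_insert ha, Finset.sum_insert ha, ih, zpow_add₀ hx]

/-- **The criterion.** A system of Laurent polynomials, the coefficients of which have the orders
`e l` at the places `V l`, has no atypical intersection with a coset by a point of the orders `κ l`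
if no linear space of dimension less than `r` meets all the tropicalizations of the systems of the
orders `e l j a + a · κ l`. -/
theorem crit2 {N r : ℕ} (A : Fin m → Finset (Fin n → ℤ)) (hA : ∀ j, (A j).Nonempty)
    (b : Fin m → (Fin n → ℤ) → ℂ) (hb : ∀ j, ∀ a ∈ A j, b j a ≠ 0)
    (V : Fin N → ValuationSubring ℂ) (π : Fin N → ℂ) (hπ0 : ∀ l, π l ≠ 0)
    (hπ1 : ∀ l, (V l).valuation (π l) < 1) (e : Fin N → Fin m → (Fin n → ℤ) → ℤ)
    (he : ∀ l j, ∀ a ∈ A j, (V l).valuation (b j a) = (V l).valuation (π l) ^ e l j a)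
    (κ : Fin N → Fin n → ℤ)
    (hgen : ∀ L : Submodule ℚ (Fin n → ℚ), Module.finrank ℚ L < r →
      ∃ l, ∀ w ∈ L, w ∉ Trop A (fun j a => e l j a + ∑ i, a i * κ l i))
    (M : Submodule ℤ (Fin n → ℤ)) (η : Fin n → ℂ) (hη0 : ∀ i, η i ≠ 0)
    (hη : ∀ l i, (V l).valuation (η i) = (V l).valuation (π l) ^ κ l i) (W : Set (Fin n → ℂ)) (hWV : W ⊆ sys A b)
    (hWT : W ⊆ coset M η) (hW : (idealOf W).IsPrime) :
    dim W + (r : Cardinal) + (Module.finrank ℤ M : Cardinal) ≤ (n : Cardinal) := by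
  classical
  by_contra hcon
  push Not at hcon
  obtain ⟨y, hy0, hyW, Λ, hΛr, hΛ⟩ := exists_special W hW M η hη0 hWT
  have hysys : ∀ j, ∑ α ∈ A j, b j α * ∏ l, y l ^ α l = 0 := fun j =>
    laurent_vanish W (fun x hx => (hWV hx).1) (A j) (b j) (fun x hx => (hWV hx).2 j) y hy0 hyW
  have hrank : n < r + Module.finrank ℤ Λ := by
    have h1 : (n : Cardinal) < ((r + Module.finrank ℤ Λ : ℕ) : Cardinal) := by
      refine hcon.trans_le ?_
      calc dim W + (r : Cardinal) + (Module.finrank ℤ M : Cardinal)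
          = (r : Cardinal) + (dim W + (Module.finrank ℤ M : Cardinal)) := by
            rw [add_comm (dim W), add_assoc]
        _ ≤ (r : Cardinal) + (Module.finrank ℤ Λ : Cardinal) := by gcongr
        _ = _ := by push_cast; rfl
    exact_mod_cast h1
  obtain ⟨l, hl⟩ := hgen (perp Λ) (by
    have := finrank_perp Λ
    omega)
  -- the values at the place `l`
  let v := (V l).valuation
  have hπv : v (π l) ≠ 0 := (Valuation.ne_zero_iff _).2 (hπ0 l)
  let E : Fin m → (Fin n → ℤ) → ℤ := fun j a => e l j a + ∑ i, a i * κ l i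
  let u : Fin n → _ := fun i => v (y i) * v (π l) ^ (-κ l i)
  have hvy : ∀ i, u i ≠ 0 := fun i =>
    mul_ne_zero ((Valuation.ne_zero_iff _).2 (hy0 i)) (zpow_ne_zero _ hπv)
  have hchr : ∀ a : Fin n → ℤ, ∏ i, u i ^ a i =
      v (∏ i, y i ^ a i) * v (π l) ^ (-∑ i, a i * κ l i) := by
    intro a
    have h1 : v (π l) ^ (-∑ i, a i * κ l i) = ∏ i, (v (π l) ^ (-κ l i)) ^ a i := by
      have h2 : ∀ i, (v (π l) ^ (-κ l i)) ^ a i = v (π l) ^ (-(a i * κ l i)) := by
        intro i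
        rw [← zpow_mul]
        congr 1
        ring
      simp only [h2]
      rw [← Finset.sum_neg_distrib]
      exact (prod_zpow_sum hπv _ _).symm
    rw [h1, map_prod, ← Finset.prod_mul_distrib]
    refine Finset.prod_congr rfl fun i _ => ?_
    rw [map_zpow₀, ← mul_zpow]
  have hvη : ∀ a : Fin n → ℤ, v (chr η a) = v (π l) ^ (∑ i, a i * κ l i) := by
    intro a
    have h2 : ∀ i, v (η i ^ a i) = v (π l) ^ (a i * κ l i) := by
      intro i
      rw [map_zpow₀, hη l i, ← zpow_mul, mul_comm]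
    rw [chr, map_prod]
    simp only [h2]
    exact prod_zpow_sum hπv _ _
  have hvΛ : ∀ a ∈ Λ, ∏ i, u i ^ a i = 1 := by
    intro a ha
    obtain ⟨k, hk, h2⟩ := hΛ a ha
    rw [hchr, zpow_neg]
    have h3 := congrArg v h2
    rw [map_pow, map_one, map_div₀, hvη] at h3
    have h4 := (pow_eq_one_iff_of_nonneg zero_le hk.ne').1 h3
    rw [← div_eq_mul_inv]
    exact h4
  have hz : ∀ j, ∀ a ∈ A j, b j a * ∏ i, y i ^ a i ≠ 0 := fun j a ha =>
    mul_ne_zero (hb j a ha) (Finset.prod_ne_zero_iff.2 fun i _ => zpow_ne_zero _ (hy0 i))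
  choose a ha b' hb' hab hval hmax using fun j =>
    exists_pair_val (V l) (A j) (hA j) (fun a => b j a * ∏ i, y i ^ a i) (hz j) (hysys j)
  let B := Module.Free.chooseBasis ℤ Λ
  let ι := Module.Free.ChooseBasisIndex ℤ Λ
  let vec : (ι ⊕ ι) ⊕ (Fin m ⊕ (Σ j : Fin m, {β // β ∈ A j})) → Fin n → ℤ :=
    Sum.elim (Sum.elim (fun i => (B i : Fin n → ℤ)) (fun i => -(B i : Fin n → ℤ)))
      (Sum.elim (fun j => a j - b' j) (fun x => (x.2 : Fin n → ℤ) - a x.1))
  let zz : (ι ⊕ ι) ⊕ (Fin m ⊕ (Σ j : Fin m, {β // β ∈ A j})) → ℤ :=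
    Sum.elim (Sum.elim (fun _ => 0) (fun _ => 0))
      (Sum.elim (fun j => E j (a j) - E j (b' j)) (fun x => E x.1 x.2 - E x.1 (a x.1)))
  have hterm : ∀ j, ∀ α ∈ A j, ∀ β ∈ A j,
      (∏ i, u i ^ (α - β) i) * v (π l) ^ (E j α - E j β) =
        v (b j α * ∏ i, y i ^ α i) / v (b j β * ∏ i, y i ^ β i) := by
    intro j α hα β hβ
    have h1 : ∏ i, u i ^ (α - β) i = (∏ i, u i ^ α i) / ∏ i, u i ^ β i := by
      rw [← Finset.prod_div_distrib]
      refine Finset.prod_congr rfl fun i _ => ?_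
      rw [Pi.sub_apply, zpow_sub₀ (hvy i)]
    have h2 : ∀ γ ∈ A j, (∏ i, u i ^ γ i) * v (π l) ^ (E j γ) = v (b j γ * ∏ i, y i ^ γ i) := by
      intro γ hγ
      rw [hchr, map_mul, he l j γ hγ]
      show _ * v (π l) ^ (e l j γ + ∑ i, γ i * κ l i) = _
      rw [zpow_add₀ hπv, zpow_neg]
      have h3 : v (π l) ^ (∑ i, γ i * κ l i) ≠ 0 := zpow_ne_zero _ hπv
      change _ = v (π l) ^ e l j γ * _
      field_simp
    rw [h1, zpow_sub₀ hπv, div_mul_div_comm, h2 α hα, h2 β hβ]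
  obtain ⟨w, hw⟩ := transfer vec zz u hvy (v (π l)) hπv (hπ1 l) (by
    rintro ((i | i) | (j | ⟨j, β, hβ⟩))
    · change (∏ k, u k ^ (B i : Fin n → ℤ) k) * v (π l) ^ (0 : ℤ) ≤ 1
      rw [zpow_zero, mul_one, hvΛ _ (B i).2]
    · change (∏ k, u k ^ (-(B i : Fin n → ℤ)) k) * v (π l) ^ (0 : ℤ) ≤ 1
      rw [zpow_zero, mul_one, hvΛ _ (Λ.neg_mem (B i).2)]
    · change (∏ k, u k ^ (a j - b' j) k) * v (π l) ^ (E j (a j) - E j (b' j)) ≤ 1
      rw [hterm j _ (ha j) _ (hb' j)]
      have h1 : v (b j (a j) * ∏ i, y i ^ a j i) = v (b j (b' j) * ∏ i, y i ^ b' j i) := hval j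
      rw [h1, div_self ((Valuation.ne_zero_iff _).2 (hz j _ (hb' j)))]
    · change (∏ k, u k ^ (β - a j) k) * v (π l) ^ (E j β - E j (a j)) ≤ 1
      rw [hterm j _ hβ _ (ha j)]
      exact div_le_one_of_le₀ (hmax j β hβ) zero_le)
  refine hl w (mem_perp_of_basis B fun i => ?_) fun j => ?_
  · have h1 := hw (Sum.inl (Sum.inl i))
    have h2 := hw (Sum.inl (Sum.inr i))
    simp only [vec, zz, Sum.elim_inl, Sum.elim_inr, Int.cast_zero, add_zero, Pi.neg_apply,
      Int.cast_neg, neg_mul, Finset.sum_neg_distrib] at h1 h2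
    linarith
  · have hdiff : ∀ α β : Fin n → ℤ, ∑ k, (((α - β) k : ℤ) : ℚ) * w k =
        ∑ k, (α k : ℚ) * w k - ∑ k, (β k : ℚ) * w k := by
      intro α β
      rw [← Finset.sum_sub_distrib]
      refine Finset.sum_congr rfl fun k _ => ?_
      rw [Pi.sub_apply]
      push_cast
      ring
    have h3 : ∀ β ∈ A j, (E j (a j) : ℚ) + ∑ i, (a j i : ℚ) * w i ≤
        (E j β : ℚ) + ∑ i, (β i : ℚ) * w i := by
      intro β hβ
      have h1 := hw (Sum.inr (Sum.inr ⟨j, β, hβ⟩))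
      simp only [vec, zz, Sum.elim_inr, hdiff] at h1
      push_cast at h1
      linarith
    refine ⟨a j, ha j, b' j, hb' j, hab j, le_antisymm (h3 _ (hb' j)) ?_, h3⟩
    have h1 := hw (Sum.inr (Sum.inl j))
    simp only [vec, zz, Sum.elim_inr, Sum.elim_inl, hdiff] at h1
    push_cast at h1
    linarith

end Pool.Agent.H594.ZP
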