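import Mathlib
import Pool.Agent.H594.ZP.Crit2
import Pool.Graph.R_seed8.Results.MP_c95b3b_ag.TropicallyGenericFamilies

/-!
Small perturbations of vectors which span a space; tropicalizations in general position remain in
general position.
-/

set_option autoImplicit false

namespace Pool.Agent.H594.ZP

open Finset Module
open Pool.Agent.TH526.ZL

/-- matrices near to a regular matrix are regular -/
theorem det_near {r : ℕ} (A : Fin r → Fin r → ℝ) (hA : (Matrix.of A).det ≠ 0) :
    ∃ c : ℝ, 0 < c ∧ ∀ B : Fin r → Fin r → ℝ, (∀ i j, |B i j - A i j| ≤ c) →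
      (Matrix.of B).det ≠ 0 := by
  have hc : Continuous fun B : Fin r → Fin r → ℝ => (Matrix.of B).det :=
    Continuous.matrix_det continuous_id
  have h1 : ∀ᶠ B in nhds A, (Matrix.of B).det ≠ 0 := hc.continuousAt.eventually_ne hA
  obtain ⟨δ, hδ, h2⟩ := Metric.eventually_nhds_iff.1 h1
  refine ⟨δ / 2, by linarith, fun B hB => h2 ?_⟩
  refine lt_of_le_of_lt ?_ (by linarith : δ / 2 < δ)
  rw [dist_pi_le_iff (by linarith)]
  intro i
  rw [dist_pi_le_iff (by linarith)]
  intro j
  rw [Real.dist_eq]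
  exact hB i j

/-- a basis among spanning vectors -/
theorem exists_basis {r K : ℕ} (E : Fin K → Fin r → ℚ)
    (h : Submodule.span ℚ (Set.range E) = ⊤) :
    ∃ idx : Fin r → Fin K, (Matrix.of fun i => E (idx i)).det ≠ 0 := by
  obtain ⟨κ, a, ha, hs, hli⟩ := exists_linearIndependent' ℚ E
  rw [h] at hs
  have hfin : Finite κ := Finite.of_injective a ha
  have : Fintype κ := Fintype.ofFinite κ
  let b : Basis κ ℚ (Fin r → ℚ) := Basis.mk hli hs.ge
  have hcard : Fintype.card κ = r := by
    have h1 := Module.finrank_eq_card_basis b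
    rw [Module.finrank_fin_fun] at h1
    exact h1.symm
  let e : Fin r ≃ κ := (Fintype.equivFinOfCardEq hcard).symm
  refine ⟨fun i => a (e i), ?_⟩
  have h2 : LinearIndependent ℚ (fun i : Fin r => E (a (e i))) := hli.comp e e.injective
  have h3 : IsUnit (Matrix.of fun i : Fin r => E (a (e i))) :=
    Matrix.linearIndependent_rows_iff_isUnit.1 h2
  exact ((Matrix.isUnit_iff_isUnit_det _).1 h3).ne_zero

/-- the rows of a regular matrix among vectors -/
theorem span_of_det {r K : ℕ} (E : Fin K → Fin r → ℚ) (idx : Fin r → Fin K)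
    (h : (Matrix.of fun i => E (idx i)).det ≠ 0) : Submodule.span ℚ (Set.range E) = ⊤ := by
  have h3 : IsUnit (Matrix.of fun i : Fin r => E (idx i)) :=
    (Matrix.isUnit_iff_isUnit_det _).2 h.isUnit
  have h2 : LinearIndependent ℚ (fun i : Fin r => E (idx i)) :=
    Matrix.linearIndependent_rows_iff_isUnit.2 h3
  have h4 := h2.span_eq_top_of_card_eq_finrank' (by simp)
  rw [eq_top_iff, ← h4]
  refine Submodule.span_mono ?_
  rintro _ ⟨i, rfl⟩
  exact ⟨idx i, rfl⟩

/-- **Perturbation.** -/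
theorem pert_one {r K : ℕ} (E : Fin K → Fin r → ℤ)
    (h : Submodule.span ℚ (Set.range fun l j => (E l j : ℚ)) = ⊤) :
    ∃ c : ℝ, 0 < c ∧ ∀ (E' : Fin K → Fin r → ℤ) (m : Fin K → ℤ),
      (∀ l, 0 < m l ∧ ∀ j, |(E' l j : ℝ) - m l * E l j| ≤ c * m l) →
      Submodule.span ℚ (Set.range fun l j => (E' l j : ℚ)) = ⊤ := by
  obtain ⟨idx, hidx⟩ := exists_basis _ h
  have h1 : (Matrix.of fun i j => (E (idx i) j : ℝ)).det ≠ 0 := by
    have h2 := (Rat.castHom ℝ).map_det (Matrix.of fun (i : Fin r) (j : Fin r) => (E (idx i) j : ℚ))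
    have h3 : (Rat.castHom ℝ).mapMatrix (Matrix.of fun (i : Fin r) (j : Fin r) => (E (idx i) j : ℚ))
        = Matrix.of fun i j => (E (idx i) j : ℝ) := by
      ext i j
      simp
    rw [h3] at h2
    rw [← h2]
    exact (map_ne_zero _).2 hidx
  obtain ⟨c, hc0, hc⟩ := det_near _ h1
  refine ⟨c, hc0, fun E' m hE' => ?_⟩
  have hm : ∀ l, (0 : ℝ) < m l := fun l => by exact_mod_cast (hE' l).1
  have h4 := hc (fun i j => (E' (idx i) j : ℝ) / m (idx i)) (by
    intro i j
    have h5 := (hE' (idx i)).2 j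
    have h6 : (E' (idx i) j : ℝ) / m (idx i) - E (idx i) j =
        ((E' (idx i) j : ℝ) - m (idx i) * E (idx i) j) / m (idx i) := by
      have := (hm (idx i)).ne'
      field_simp
    rw [h6, abs_div, abs_of_pos (hm (idx i)), div_le_iff₀ (hm (idx i))]
    exact h5)
  refine span_of_det _ idx fun h7 => h4 ?_
  have h8 : (Matrix.of fun i j => (E' (idx i) j : ℝ) / m (idx i)) =
      Matrix.of fun (i : Fin r) (j : Fin r) => ((m (idx i) : ℝ)⁻¹) *
        (Matrix.of fun i j => (E' (idx i) j : ℝ)) i j := by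
    ext i j
    simp [div_eq_inv_mul]
  rw [h8, Matrix.det_mul_column]
  have h9 : (Matrix.of fun i j => (E' (idx i) j : ℝ)).det = 0 := by
    have h2 := (Rat.castHom ℝ).map_det (Matrix.of fun (i : Fin r) (j : Fin r) => (E' (idx i) j : ℚ))
    have h3 : (Rat.castHom ℝ).mapMatrix (Matrix.of fun (i : Fin r) (j : Fin r) => (E' (idx i) j : ℚ))
        = Matrix.of fun i j => (E' (idx i) j : ℝ) := by
      ext i j
      simp
    rw [h3] at h2
    rw [← h2, h7, map_zero]
  rw [h9, mul_zero]

variable {n r M k : ℕ}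

/-- **Tropicalizations in general position remain in general position** after a small perturbation of
the orders. -/
theorem general_pert (A : Fin r → Finset (Fin n → ℤ)) (e : Fin M → Fin r → (Fin n → ℤ) → ℤ)
    (h : ∀ a b : Fin r → Fin n → ℤ, (∀ j, a j ∈ A j ∧ b j ∈ A j ∧ a j ≠ b j) →
      ∀ S : Finset (Fin M), S.card = k + 1 → Submodule.span ℚ
        ((fun l (j : Fin r) => ((e l j (a j) : ℚ) - e l j (b j))) '' (S : Set (Fin M))) = ⊤) :
    ∃ c : ℝ, 0 < c ∧ ∀ (N : ℕ), N = k * ∏ j, ((A j).card * ((A j).card - 1)) + 1 →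
      ∀ (f : Fin N → Fin M), Function.Injective f → ∀ (e' : Fin N → Fin r → (Fin n → ℤ) → ℤ)
      (m : Fin N → ℤ), (∀ l, 0 < m l ∧ ∀ j, ∀ a ∈ A j,
        |(e' l j a : ℝ) - m l * e (f l) j a| ≤ c * m l) →
      ∀ L : Submodule ℚ (Fin n → ℚ), Module.finrank ℚ L < r →
        ∃ l, ∀ w ∈ L, w ∉ Pool.Agent.Y199.ZF.Trop A (e' l) := by
  classical
  -- the choices
  let Ch : Type := (∀ j : Fin r, {a // a ∈ A j}) × (∀ j : Fin r, {a // a ∈ A j}) ×
    (Fin (k + 1) → Fin M)
  have : Fintype Ch := inferInstance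
  have h1 : ∀ x : Ch, ∃ c : ℝ, 0 < c ∧ ((∀ j, (x.1 j : Fin n → ℤ) ≠ x.2.1 j) →
      Function.Injective x.2.2 → ∀ (E' : Fin (k + 1) → Fin r → ℤ) (m : Fin (k + 1) → ℤ),
      (∀ l, 0 < m l ∧ ∀ j, |(E' l j : ℝ) - m l * (e (x.2.2 l) j (x.1 j) - e (x.2.2 l) j (x.2.1 j))| ≤
        c * m l) → Submodule.span ℚ (Set.range fun l j => (E' l j : ℚ)) = ⊤) := by
    intro x
    by_cases hx : (∀ j, (x.1 j : Fin n → ℤ) ≠ x.2.1 j) ∧ Function.Injective x.2.2
    · have h2 := h (fun j => x.1 j) (fun j => x.2.1 j)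
        (fun j => ⟨(x.1 j).2, (x.2.1 j).2, hx.1 j⟩) (Finset.univ.map ⟨x.2.2, hx.2⟩)
        (by rw [Finset.card_map, Finset.card_univ, Fintype.card_fin])
      obtain ⟨c, hc0, hc⟩ := pert_one (fun (l : Fin (k + 1)) (j : Fin r) =>
        e (x.2.2 l) j (x.1 j) - e (x.2.2 l) j (x.2.1 j)) (by
          rw [← h2]
          congr 1
          ext v
          simp only [Set.mem_range, Set.mem_image, Finset.coe_map, Finset.coe_univ, Set.image_univ,
            Function.Embedding.coeFn_mk, exists_exists_eq_and]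
          constructor
          · rintro ⟨l, rfl⟩
            refine ⟨l, ?_⟩
            funext j
            push_cast
            rfl
          · rintro ⟨l, rfl⟩
            refine ⟨l, ?_⟩
            funext j
            push_cast
            rfl)
      refine ⟨c, hc0, fun _ _ E' m hE => hc E' m fun l => ⟨(hE l).1, fun j => ?_⟩⟩
      have h3 := (hE l).2 j
      push_cast
      exact h3
    · refine ⟨1, one_pos, fun h2 h3 => ?_⟩
      exact absurd ⟨h2, h3⟩ hx
  choose C hC0 hC using h1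
  obtain ⟨c, hc0, hc⟩ : ∃ c : ℝ, 0 < c ∧ ∀ x : Ch, c ≤ C x := by
    by_cases hne : Nonempty Ch
    · obtain ⟨x0, hx0⟩ := Finite.exists_min C
      exact ⟨C x0, hC0 x0, hx0⟩
    · exact ⟨1, one_pos, fun x => absurd ⟨x⟩ hne⟩
  refine ⟨c / 2, by linarith, ?_⟩
  rintro N rfl f hf e' m hE L hL
  have hgp := Pool.Agent.Results.MP_c95b3b_ag.TropicallyGenericFamilies.general_position (k := k) A e'
    (by
      intro a b hab S hS
      let g : Fin (k + 1) → Fin (k * ∏ j, ((A j).card * ((A j).card - 1)) + 1) :=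
        fun i => (S.equivFinOfCardEq hS).symm i
      have hg : Function.Injective g := Subtype.val_injective.comp (Equiv.injective _)
      have h2 := hC (⟨fun j => ⟨a j, (hab j).1⟩, fun j => ⟨b j, (hab j).2.1⟩, f ∘ g⟩ : Ch)
        (fun j => (hab j).2.2) (hf.comp hg)
        (fun l j => e' (g l) j (a j) - e' (g l) j (b j)) (fun l => m (g l)) (by
          intro l
          have hml : (0 : ℝ) < m (g l) := by exact_mod_cast (hE (g l)).1
          refine ⟨(hE (g l)).1, fun j => ?_⟩
          have h3 := (hE (g l)).2 j (a j) (hab j).1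
          have h4 := (hE (g l)).2 j (b j) (hab j).2.1
          have h5 := hc (⟨fun j => ⟨a j, (hab j).1⟩, fun j => ⟨b j, (hab j).2.1⟩, f ∘ g⟩ : Ch)
          have h6 : c * m (g l) ≤ C (⟨fun j => ⟨a j, (hab j).1⟩, fun j => ⟨b j, (hab j).2.1⟩,
            f ∘ g⟩ : Ch) * m (g l) := mul_le_mul_of_nonneg_right h5 hml.le
          refine le_trans ?_ h6
          rw [abs_le] at h3 h4 ⊢
          simp only [Function.comp]
          push_cast
          constructor
          · linarith [h3.1, h4.2]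
          · linarith [h3.2, h4.1])
      have h7 : (Set.range fun l j => (((fun (l : Fin (k + 1)) (j : Fin r) =>
          e' (g l) j (a j) - e' (g l) j (b j)) l j : ℤ) : ℚ)) =
          (fun l (j : Fin r) => ((e' l j (a j) : ℚ) - e' l j (b j))) '' (S : Set (Fin _)) := by
        ext v
        simp only [Set.mem_range, Set.mem_image]
        constructor
        · rintro ⟨l, rfl⟩
          refine ⟨g l, ((S.equivFinOfCardEq hS).symm l).2, ?_⟩
          funext j
          push_cast
          rfl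
        · rintro ⟨l, hl, rfl⟩
          refine ⟨S.equivFinOfCardEq hS ⟨l, hl⟩, ?_⟩
          have h8 : g (S.equivFinOfCardEq hS ⟨l, hl⟩) = l := by
            show (((S.equivFinOfCardEq hS).symm (S.equivFinOfCardEq hS ⟨l, hl⟩) : S) : Fin _) = l
            rw [Equiv.symm_apply_apply]
          funext j
          rw [h8]
          push_cast
          rfl
      rw [← h7]
      exact h2)
  obtain ⟨l, -, hl⟩ := hgp L hL Finset.univ (by rw [Finset.card_univ, Fintype.card_fin])
  exact ⟨l, hl⟩

end Pool.Agent.H594.ZP
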