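import Mathlib
import Pool.Agent.H594.ZP.Pert
import Pool.Agent.H594.ZP.Good
import Pool.Agent.H594.WI.Cx

/-!
Families of systems of Laurent equations near their degenerate members: coefficients multiplied by
numbers of small height, and cosets by points of small height.
-/

set_option autoImplicit false
set_option linter.unusedSectionVars false

namespace Pool.Agent.H594.ZP

open Finset Module
open Pool.Agent.H594.ML Pool.Agent.H594.WI Pool.Agent.H594.KP Pool.Agent.H594.BD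
open Pool.Agent.Helper259.AbsHt Pool.Agent.Y215.SK Pool.Agent.TH526.ZT
open Pool.Agent.Results.MP_b7926e_nt.NoAtypical (coset idealOf dim)

open scoped Classical

/-- a unit of the integral closure of the ring generated by `Γ` -/
def UnitOver (Γ : Set ℂ) (z : ℂ) : Prop :=
  z ≠ 0 ∧ IsIntegral (Algebra.adjoin ℤ Γ) z ∧ IsIntegral (Algebra.adjoin ℤ Γ) z⁻¹

/-- the numbers of bounded degree in the algebraic closure -/
theorem degQ_of {K : IntermediateField ℚ ℂ} [FiniteDimensional ℚ K] {d : ℕ} {y : Qbar} (hz : sg y ∈ DegLe K d) :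
    y ∈ DegQ (K.comap sgA) d := by
  obtain ⟨P, hP, hPd, hPK, hPy⟩ := hz
  obtain ⟨P', hP'⟩ := lift_sg (P := P) (fun i => mem_alg (hPK i))
  refine ⟨P', ?_, ?_, fun i => ?_, ?_⟩
  · rintro rfl
    rw [Polynomial.map_zero] at hP'
    exact hP hP'.symm
  · rw [← hP', Polynomial.natDegree_map] at hPd
    exact hPd
  · show sg (P'.coeff i) ∈ K
    have h1 := hPK i
    rw [← hP', Polynomial.coeff_map] at h1
    exact h1
  · apply sg_inj
    rw [map_zero, ← hPy, ← hP', Polynomial.eval_map_apply]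

/-- the values of the coefficients near the degenerate members -/
theorem near_sg {n r M : ℕ} (A : Fin r → Finset (Fin n → ℤ))
    (c : Fin r → (Fin n → ℤ) → Polynomial ℂ) (hc0 : ∀ j, ∀ β ∈ A j, c j β ≠ 0)
    (hc : ∀ j, ∀ β ∈ A j, ∀ i, IsAlgebraic ℚ ((c j β).coeff i)) (α : Fin M → Qbar)
    (Γ : Set Qbar) (hΓ : Γ.Finite) :
    ∃ W : Set Qbar, W.Finite ∧ ∀ V : ValuationSubring ℂ, (∀ z ∈ W, sg z ∈ V) →
      (∀ u : ℂ, UnitOver (sg '' Γ) u → V.valuation u = 1) ∧
      ∀ (l : Fin M) (t : ℂ), V.valuation (t - sg (α l)) < 1 → ∀ j, ∀ a ∈ A j,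
        V.valuation ((c j a).eval t) =
          V.valuation (t - sg (α l)) ^ (c j a).rootMultiplicity (sg (α l)) := by
  let _ : Algebra Qbar ℂ := sg.toAlgebra
  have hl : ∀ j β, ∃ P : Polynomial Qbar, β ∈ A j → P.map sg = c j β := by
    intro j β
    by_cases h : β ∈ A j
    · obtain ⟨P, hP⟩ := lift_sg (hc j β h)
      exact ⟨P, fun _ => hP⟩
    · exact ⟨0, fun h' => absurd h' h⟩
  choose c' hc' using hl
  have hc'0 : ∀ j, ∀ β ∈ A j, c' j β ≠ 0 := by
    intro j β hβ h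
    apply hc0 j β hβ
    rw [← hc' j β hβ, h, Polynomial.map_zero]
  obtain ⟨W, hW, hΓW, hnear⟩ := Pool.Agent.Y199.ZF.near A c' hc'0 α Γ hΓ
  refine ⟨W, hW, fun V hV => ⟨?_, ?_⟩⟩
  · rintro z ⟨hz0, h1, h2⟩
    have h3 : ∀ w : ℂ, IsIntegral (Algebra.adjoin ℤ (sg '' Γ)) w → V.valuation w ≤ 1 :=
      fun w hw => Pool.Agent.Y152.BD.v_le_of_int Γ V (fun x hx => hV x (hΓW hx)) hw
    refine le_antisymm (h3 z h1) ?_
    have h5 := h3 _ h2
    rw [map_inv₀] at h5
    have h6 : V.valuation z ≠ 0 := (Valuation.ne_zero_iff _).2 hz0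
    exact (inv_le_one₀ (zero_lt_iff.2 h6)).1 h5
  · intro l t ht j a ha
    have h1 := hnear V hV l t ht j a ha
    rw [← hc' j a ha, Polynomial.eval_map, ← Polynomial.eq_rootMultiplicity_map sg_inj]
    exact h1

/-- **Families of systems** near the degenerate members. -/
theorem fam {n r M k d : ℕ} (hd : 1 ≤ d) (A : Fin r → Finset (Fin n → ℤ))
    (hA : ∀ j, (A j).Nonempty) (e : Fin M → Fin r → (Fin n → ℤ) → ℤ)
    (h : ∀ a b : Fin r → Fin n → ℤ, (∀ j, a j ∈ A j ∧ b j ∈ A j ∧ a j ≠ b j) →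
      ∀ S : Finset (Fin M), S.card = k + 1 → Submodule.span ℚ
        ((fun l (j : Fin r) => ((e l j (a j) : ℚ) - e l j (b j))) '' (S : Set (Fin M))) = ⊤)
    (N : ℕ) (hN : N = k * ∏ j, ((A j).card * ((A j).card - 1)) + 1) :
    ∃ κ : ℝ, 0 < κ ∧ ∀ (K : IntermediateField ℚ ℂ), FiniteDimensional ℚ K → ∀ (α : Fin M → ℂ),
      Function.Injective α → (∀ l, IsAlgebraic ℚ (α l)) →
      ∀ c : Fin r → (Fin n → ℤ) → Polynomial ℂ, (∀ j, ∀ β ∈ A j, c j β ≠ 0 ∧
        (∀ i, IsAlgebraic ℚ ((c j β).coeff i)) ∧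
        ∀ l, ((c j β).rootMultiplicity (α l) : ℤ) = e l j β) →
      ∀ Γ : Set ℂ, Γ.Finite → (∀ z ∈ Γ, IsAlgebraic ℚ z) →
      {t : ℂ | t ∈ DegLe K d ∧ (N + 2 * d ≤ M ∨ (IsIntegral ℤ t ∧ N + 2 * d ≤ M + 1)) ∧
        ¬ ∀ (u s : Fin r → (Fin n → ℤ) → ℂ) (p q : Fin n → ℂ),
          (∀ j, ∀ β ∈ A j, UnitOver Γ (u j β) ∧ IsAlgebraic ℚ (s j β) ∧ s j β ≠ 0) →
          (∀ i, UnitOver Γ (p i) ∧ IsAlgebraic ℚ (q i) ∧ q i ≠ 0) →
          ∑ j, ∑ β ∈ A j, ht (s j β) + ∑ i, ht (q i) ≤ κ * ht t →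
          ∀ (Λ : Submodule ℤ (Fin n → ℤ)) (B : Set (Fin n → ℂ)),
            B ⊆ sys A (fun j β => u j β * s j β * (c j β).eval t) →
            B ⊆ coset Λ (fun i => p i * q i) → (idealOf B).IsPrime →
            dim B + (r : Cardinal) + (Module.finrank ℤ Λ : Cardinal) ≤ (n : Cardinal)}.Finite := by
  obtain ⟨c0, hc0, hpert⟩ := general_pert A e h
  let B0 : ℝ := 1 + ∑ j, ∑ β ∈ A j, ∑ i, |(β i : ℝ)|
  have hB0 : 1 ≤ B0 := by
    have : 0 ≤ ∑ j, ∑ β ∈ A j, ∑ i, |(β i : ℝ)| := by positivity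
    linarith
  have hB0' : 0 < B0 := by linarith
  let c1 : ℝ := c0 / B0
  have hc1 : 0 < c1 := div_pos hc0 hB0'
  let κ : ℝ := c1 / (4 * (4 * d + 4))
  have hd4 : (0 : ℝ) < 4 * d + 4 := by positivity
  have hκ0 : 0 < κ := by positivity
  have hκ : 2 * κ * (4 * d + 4) < c1 := by
    have h1 : 2 * κ * (4 * d + 4) = c1 / 2 := by
      show 2 * (c1 / (4 * (4 * (d : ℝ) + 4))) * (4 * d + 4) = _
      field_simp
      norm_num
    rw [h1]
    linarith
  refine ⟨κ, hκ0, fun K hK α hα hαalg c hc Γ hΓ hΓalg => ?_⟩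
  choose α' hα' using fun l => exists_sg (hαalg l)
  have hα'inj : Function.Injective α' := fun x y hxy => hα (by rw [← hα', ← hα', hxy])
  have hΓ' : (sg ⁻¹' Γ).Finite := hΓ.preimage sg_inj.injOn
  have hΓim : sg '' (sg ⁻¹' Γ) = Γ := by
    rw [Set.image_preimage_eq_iff]
    intro z hz
    exact exists_sg (hΓalg z hz)
  obtain ⟨W, hW, hWV⟩ := near_sg A c (fun j β hβ => (hc j β hβ).1)
    (fun j β hβ => (hc j β hβ).2.1) α' (sg ⁻¹' Γ) hΓ'
  have hfd : FiniteDimensional ℚ (K.comap sgA) := comap_fin K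
  obtain ⟨E, hE, hRE, hmain⟩ := good_places (K.comap sgA) (Finset.univ.image α') hW.toFinset d hd
    c1 κ hc1 hκ
  have hroots : (⋃ j, ⋃ β ∈ A j, {t : ℂ | (c j β).eval t = 0}).Finite := by
    refine Set.finite_iUnion fun j => (A j).finite_toSet.biUnion fun β hβ => ?_
    refine (c j β).roots.toFinset.finite_toSet.subset fun t ht => ?_
    rw [Finset.mem_coe, Multiset.mem_toFinset, Polynomial.mem_roots (hc j β hβ).1]
    exact ht
  refine ((hE.image sg).union hroots).subset ?_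
  rintro t ⟨htd, hNM, hno⟩
  by_contra hcon
  rw [Set.mem_union, not_or] at hcon
  obtain ⟨g1, h2⟩ := hcon
  have hev : ∀ j, ∀ β ∈ A j, (c j β).eval t ≠ 0 := fun j β hβ h3 =>
    h2 (Set.mem_iUnion.2 ⟨j, Set.mem_biUnion hβ h3⟩)
  apply hno
  intro u s p q hus hpq hsum Λ B hB1 hB2 hB
  obtain ⟨z, rfl⟩ := exists_sg (degLe_alg htd)
  have hzE : z ∉ E := fun h3 => g1 ⟨z, h3, rfl⟩
  obtain ⟨R', hR', hcard1, hcard2, hplaces⟩ := hmain z (degQ_of htd) hzE
  have hRcard : (Finset.univ.image α').card = M := by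
    rw [Finset.card_image_of_injective _ hα'inj, Finset.card_univ, Fintype.card_fin]
  have hNR : N ≤ R'.card := by
    rcases hNM with h3 | ⟨h3, h4⟩
    · omega
    · have hi' : IsIntegral ℤ z := (isIntegral_algHom_iff (sg.toIntAlgHom) sg_inj).1 h3
      have := hcard2 hi'
      omega
  -- the places
  obtain ⟨f, hf, hfR⟩ : ∃ f : Fin N → Fin M, Function.Injective f ∧ ∀ l, α' (f l) ∈ R' := by
    let S : Finset (Fin M) := Finset.univ.filter fun l => α' l ∈ R'
    have hS : R' = S.image α' := by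
      ext x
      simp only [S, Finset.mem_image, Finset.mem_filter, Finset.mem_univ, true_and]
      constructor
      · intro hx
        obtain ⟨l, -, rfl⟩ := Finset.mem_image.1 (hR' hx)
        exact ⟨l, hx, rfl⟩
      · rintro ⟨l, hl, rfl⟩
        exact hl
    have hScard : N ≤ S.card := by
      rw [hS, Finset.card_image_of_injective _ hα'inj] at hNR
      exact hNR
    obtain ⟨T, hTS, hT⟩ := Finset.exists_subset_card_eq hScard
    refine ⟨fun i => ((T.equivFinOfCardEq hT).symm i : Fin M),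
      Subtype.val_injective.comp (Equiv.injective _), fun i => ?_⟩
    exact (Finset.mem_filter.1 (hTS ((T.equivFinOfCardEq hT).symm i).2)).2
  -- the small numbers
  let ι : Type := (Σ j : Fin r, {β // β ∈ A j}) ⊕ Fin n
  have hy : ∀ x : ι, ∃ y : Qbar, sg y = Sum.elim (fun x : Σ j : Fin r, {β // β ∈ A j} =>
      s x.1 x.2.1) q x := by
    rintro (x | i)
    · exact exists_sg (hus x.1 x.2.1 x.2.2).2.1
    · exact exists_sg (hpq i).2.1
  choose y hy using hy
  have hy0 : ∀ x, y x ≠ 0 := by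
    intro x h3
    have h4 := hy x
    rw [h3, map_zero] at h4
    rcases x with x | i
    · exact (hus x.1 x.2.1 x.2.2).2.2 h4.symm
    · exact (hpq i).2.2 h4.symm
  have hysum : ∑ x, h1 (y x) ≤ κ * h1 z := by
    have e1 : ∀ x, h1 (y x) = ht (sg (y x)) := fun x => (ht_sg _).symm
    rw [← ht_sg z]
    refine le_trans (le_of_eq ?_) hsum
    rw [Fintype.sum_sum_type]
    congr 1
    · rw [Fintype.sum_sigma]
      refine Finset.sum_congr rfl fun j _ => ?_
      rw [← Finset.sum_coe_sort (A j) (fun β => ht (s j β))]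
      refine Finset.sum_congr rfl fun β _ => ?_
      rw [e1, hy]
      rfl
    · refine Finset.sum_congr rfl fun i _ => ?_
      rw [e1, hy]
      rfl
  choose V π hπ0 hπ1 hV m hm hVm kk hkk hkksum using
    fun l : Fin N => hplaces ι y hy0 hysum (α' (f l)) (hfR l)
  let ks : Fin N → Fin r → (Fin n → ℤ) → ℤ := fun l j β =>
    if hβ : β ∈ A j then kk l (Sum.inl ⟨j, ⟨β, hβ⟩⟩) else 0
  let kq : Fin N → Fin n → ℤ := fun l i => kk l (Sum.inr i)
  have hVW : ∀ l, ∀ z ∈ W, sg z ∈ V l := fun l z hz => hV l z (hW.mem_toFinset.2 hz)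
  have hunit : ∀ l w, UnitOver Γ w → (V l).valuation w = 1 := by
    intro l w hw
    refine (hWV (V l) (hVW l)).1 w ?_
    rw [hΓim]
    exact hw
  have hsub : ∀ l, (V l).valuation (sg z - sg (α' (f l))) = (V l).valuation (π l) ^ m l := by
    intro l
    rw [← map_sub]
    exact hVm l
  have hlt : ∀ l, (V l).valuation (sg z - sg (α' (f l))) < 1 := by
    intro l
    rw [hsub l]
    obtain ⟨m', hm'⟩ : ∃ m' : ℕ, m l = m' := ⟨(m l).toNat, (Int.toNat_of_nonneg (hm l).le).symm⟩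
    rw [hm', zpow_natCast]
    refine pow_lt_one₀ zero_le (hπ1 l) ?_
    rintro rfl
    have := hm l
    omega
  have hcV : ∀ l j, ∀ β ∈ A j, (V l).valuation ((c j β).eval (sg z)) =
      (V l).valuation (π l) ^ (m l * e (f l) j β) := by
    intro l j β hβ
    rw [(hWV (V l) (hVW l)).2 (f l) (sg z) (hlt l) j β hβ, hsub l, ← zpow_natCast, ← zpow_mul]
    congr 2
    rw [hα']
    exact (hc j β hβ).2.2 (f l)
  refine crit2 A hA (fun j β => u j β * s j β * (c j β).eval (sg z)) (fun j β hβ => ?_) V π hπ0 hπ1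
    (fun l j β => m l * e (f l) j β + ks l j β) (fun l j β hβ => ?_) kq
    (fun L hL => ?_) Λ (fun i => p i * q i) (fun i => ?_) (fun l i => ?_) B hB1 hB2 hB
  · exact mul_ne_zero (mul_ne_zero (hus j β hβ).1.1 (hus j β hβ).2.2) (hev j β hβ)
  · have hπv : (V l).valuation (π l) ≠ 0 := (Valuation.ne_zero_iff _).2 (hπ0 l)
    show (V l).valuation (u j β * s j β * (c j β).eval (sg z)) =
      (V l).valuation (π l) ^ (m l * e (f l) j β + ks l j β)
    rw [map_mul, map_mul, hunit l _ (hus j β hβ).1, one_mul, hcV l j β hβ, zpow_add₀ hπv, mul_comm]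
    congr 1
    have h3 := hkk l (Sum.inl ⟨j, ⟨β, hβ⟩⟩)
    rw [hy] at h3
    have h4 : ks l j β = kk l (Sum.inl ⟨j, ⟨β, hβ⟩⟩) := dif_pos hβ
    rw [h4]
    exact h3
  · refine hpert N hN f hf (fun l j a => m l * e (f l) j a + ks l j a + ∑ i, a i * kq l i) m
      (fun l => ⟨hm l, fun j a ha => ?_⟩) L hL
    have hks : |(ks l j a : ℝ)| ≤ ∑ x, |(kk l x : ℝ)| := by
      have h4 : ks l j a = kk l (Sum.inl ⟨j, ⟨a, ha⟩⟩) := dif_pos ha
      rw [h4]
      exact Finset.single_le_sum (f := fun x => |(kk l x : ℝ)|) (fun _ _ => abs_nonneg _)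
        (Finset.mem_univ _)
    have hkq : ∀ i, |(kq l i : ℝ)| ≤ ∑ x, |(kk l x : ℝ)| := fun i =>
      Finset.single_le_sum (f := fun x => |(kk l x : ℝ)|) (fun _ _ => abs_nonneg _)
        (Finset.mem_univ (Sum.inr i))
    have hai : ∑ i, |(a i : ℝ)| ≤ B0 - 1 := by
      have h5 : ∑ i, |(a i : ℝ)| ≤ ∑ β ∈ A j, ∑ i, |(β i : ℝ)| :=
        Finset.single_le_sum (f := fun β : Fin n → ℤ => ∑ i, |(β i : ℝ)|)
          (fun _ _ => Finset.sum_nonneg fun _ _ => abs_nonneg _) ha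
      have h6 : ∑ β ∈ A j, ∑ i, |(β i : ℝ)| ≤ ∑ j, ∑ β ∈ A j, ∑ i, |(β i : ℝ)| :=
        Finset.single_le_sum (f := fun j => ∑ β ∈ A j, ∑ i, |(β i : ℝ)|)
          (fun _ _ => Finset.sum_nonneg fun _ _ => Finset.sum_nonneg fun _ _ => abs_nonneg _)
          (Finset.mem_univ j)
      show _ ≤ 1 + ∑ j, ∑ β ∈ A j, ∑ i, |(β i : ℝ)| - 1
      linarith
    have hX0 : 0 ≤ ∑ x, |(kk l x : ℝ)| := Finset.sum_nonneg fun _ _ => abs_nonneg _
    have hX : ∑ x, |(kk l x : ℝ)| ≤ c1 * m l := hkksum l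
    have e1 : ((m l * e (f l) j a + ks l j a + ∑ i, a i * kq l i : ℤ) : ℝ) -
        m l * e (f l) j a = ks l j a + ∑ i, (a i : ℝ) * kq l i := by
      push_cast
      ring
    rw [e1]
    calc |(ks l j a : ℝ) + ∑ i, (a i : ℝ) * kq l i|
        ≤ |(ks l j a : ℝ)| + ∑ i, |(a i : ℝ)| * |(kq l i : ℝ)| := by
          refine (abs_add_le _ _).trans (add_le_add le_rfl ?_)
          refine (Finset.abs_sum_le_sum_abs _ _).trans (le_of_eq ?_)
          exact Finset.sum_congr rfl fun i _ => abs_mul _ _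
      _ ≤ (∑ x, |(kk l x : ℝ)|) + ∑ i, |(a i : ℝ)| * (∑ x, |(kk l x : ℝ)|) := by
          refine add_le_add hks (Finset.sum_le_sum fun i _ => ?_)
          exact mul_le_mul_of_nonneg_left (hkq i) (abs_nonneg _)
      _ = (1 + ∑ i, |(a i : ℝ)|) * ∑ x, |(kk l x : ℝ)| := by
          rw [← Finset.sum_mul]
          ring
      _ ≤ B0 * (c1 * m l) := by
          refine mul_le_mul (by linarith) hX hX0 hB0'.le
      _ = c0 * m l := by
          show B0 * (c0 / B0 * m l) = _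
          field_simp
  · exact mul_ne_zero (hpq i).1.1 (hpq i).2.2
  · show (V l).valuation (p i * q i) = (V l).valuation (π l) ^ kk l (Sum.inr i)
    rw [map_mul, hunit l _ (hpq i).1, one_mul]
    have h3 := hkk l (Sum.inr i)
    rw [hy] at h3
    exact h3

end Pool.Agent.H594.ZP
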